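import Pool.Agent.MNE.StmtsA

set_option autoImplicit false

namespace Pool.Agent.MNE.H80

theorem gcd : GcdStmt := by
  intro f A W z w hf hw h
  by_contra hc
  obtain ⟨hlt, hle, hA, -, hW, -, -, -, hwz⟩ := h
  set k := Nat.gcd z w with hk
  have hk8 : 8 ≤ k := by omega
  obtain ⟨z', hz'⟩ : k ∣ z := Nat.gcd_dvd_left z w
  obtain ⟨w', hw'⟩ : k ∣ w := Nat.gcd_dvd_right z w
  have e1 : A ^ z = (A ^ z') ^ k := by rw [← pow_mul, hz', Nat.mul_comm]
  have e2 : W ^ w = (W ^ w') ^ k := by rw [← pow_mul, hw', Nat.mul_comm]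
  rw [e1, e2] at hlt hle
  have hb1 : 1 ≤ W ^ w' := Nat.one_le_pow _ _ (by omega)
  have hab : W ^ w' + 1 ≤ A ^ z' := lt_of_pow_lt_pow_left₀ k (Nat.zero_le _) hlt
  clear_value k
  generalize A ^ z' = a at *
  generalize W ^ w' = b at *
  have h1 : (b + 1) ^ k ≤ a ^ k := Nat.pow_le_pow_left hab k
  have h2 : b ^ k + 2 * b ^ (k - 1) ≤ (b + 1) ^ k := by
    obtain ⟨j, rfl⟩ : ∃ j, k = j + 1 := ⟨k - 1, by omega⟩
    have h3 : b ^ (j + 1) + (j + 1) * b ^ j ≤ (b + 1) ^ (j + 1) := by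
      clear * -
      induction j with
      | zero => simp
      | succ j ih =>
        calc b ^ (j + 1 + 1) + (j + 1 + 1) * b ^ (j + 1)
            ≤ (b + 1) * (b ^ (j + 1) + (j + 1) * b ^ j) := by
              have : b ^ (j + 1) = b * b ^ j := by ring
              have : b ^ (j + 1 + 1) = b * (b * b ^ j) := by ring
              nlinarith [Nat.zero_le (b ^ j), Nat.zero_le ((j + 1) * b ^ j)]
          _ ≤ (b + 1) * (b + 1) ^ (j + 1) := Nat.mul_le_mul_left _ ih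
          _ = (b + 1) ^ (j + 1 + 1) := by ring
    have h4 : 2 * b ^ j ≤ (j + 1) * b ^ j := Nat.mul_le_mul_right _ (by omega)
    simp only [Nat.add_sub_cancel]
    omega
  have h3 : 2 * b ^ (k - 1) ≤ a ^ k - b ^ k := by omega
  have h4 : b ^ (k - 1) < a ^ k - b ^ k := by
    have : 0 < b ^ (k - 1) := Nat.pow_pos (by omega)
    omega
  have h5 : (b ^ (k - 1)) ^ 50 < (a ^ k - b ^ k) ^ 50 := Nat.pow_lt_pow_left h4 (by norm_num)
  have h6 : (b ^ k) ^ 43 ≤ (b ^ (k - 1)) ^ 50 := by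
    rw [← pow_mul, ← pow_mul]
    exact Nat.pow_le_pow_right hb1 (by omega)
  omega

end Pool.Agent.MNE.H80
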