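import Pool.Agent.MNE.StmtsB

set_option autoImplicit false

namespace Pool.Agent.MNE.H80

open Finset Filter Topology

/-- coefficients of `x^k e^(bx)` -/
noncomputable def cf (k : ℕ) (b : ℝ) (n : ℕ) : ℝ :=
  if k ≤ n then b ^ (n - k) / (Nat.factorial (n - k) : ℝ) else 0

theorem cf_nonneg (k : ℕ) (b : ℝ) (hb : 0 ≤ b) (n : ℕ) : 0 ≤ cf k b n := by
  unfold cf
  split_ifs
  · positivity
  · exact le_rfl

theorem cf_hasSum (k : ℕ) (b y : ℝ) :
    HasSum (fun n => cf k b n * y ^ n) (y ^ k * Real.exp (b * y)) := by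
  rw [← hasSum_nat_add_iff' k]
  have h0 : ∑ i ∈ range k, cf k b i * y ^ i = 0 := by
    apply sum_eq_zero
    intro i hi
    have : ¬ k ≤ i := by rw [mem_range] at hi; omega
    unfold cf
    rw [if_neg this, zero_mul]
  rw [h0, sub_zero]
  have h1 : HasSum (fun n => (b * y) ^ n / (Nat.factorial n : ℝ)) (Real.exp (b * y)) := by
    rw [Real.exp_eq_exp_ℝ]
    exact NormedSpace.expSeries_div_hasSum_exp (b * y)
  have h2 := h1.mul_left (y ^ k)
  refine h2.congr_fun ?_
  intro n
  unfold cf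
  rw [if_pos (by omega), Nat.add_sub_cancel, mul_pow, pow_add]
  ring

theorem ube (ubf : UbfStmt) : UbeStmt := by
  intro D k b x r ρ hr hρ hb hx
  have hL : Tendsto (fun T : ℕ => ρ ^ (D * (D - 1) / 2) *
      |Matrix.det (Matrix.of fun i j : Fin D => ∑ n ∈ range T, cf (k i) (b i) n * x j ^ n)|) atTop
      (𝓝 (ρ ^ (D * (D - 1) / 2) *
    |Matrix.det (Matrix.of fun i j : Fin D => x j ^ k i * Real.exp (b i * x j))|)) := by
    apply Tendsto.const_mul
    apply Tendsto.abs
    have hc : Continuous (fun M : Matrix (Fin D) (Fin D) ℝ => M.det) := continuous_id.matrix_det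
    refine (hc.tendsto _).comp ?_
    refine tendsto_pi_nhds.2 fun i => tendsto_pi_nhds.2 fun j => ?_
    exact (cf_hasSum (k i) (b i) (x j)).tendsto_sum_nat
  have hR : Tendsto (fun T : ℕ => (Nat.factorial D : ℝ) *
      ∏ i : Fin D, ∑ n ∈ range T, |cf (k i) (b i) n| * (ρ * r) ^ n) atTop
      (𝓝 ((Nat.factorial D : ℝ) * ∏ i : Fin D, ((ρ * r) ^ k i * Real.exp (b i * (ρ * r))))) := by
    apply Tendsto.const_mul
    apply tendsto_finsetProd
    intro i _
    have h1 := (cf_hasSum (k i) (b i) (ρ * r)).tendsto_sum_nat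
    refine h1.congr ?_
    intro T
    apply sum_congr rfl
    intro n _
    rw [abs_of_nonneg (cf_nonneg _ _ (hb i) _)]
  refine le_of_tendsto_of_tendsto' hL hR ?_
  intro T
  exact ubf D T (fun i n => cf (k i) (b i) n) x r ρ hr hρ hx

end Pool.Agent.MNE.H80
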