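import Pool.Agent.MNE.StmtsB

set_option autoImplicit false

namespace Pool.Agent.MNE.H80

open Finset

theorem sum_ge : ∀ (D : ℕ) (s : Finset ℕ), s.card = D → D * (D - 1) / 2 ≤ ∑ n ∈ s, n := by
  intro D
  induction D with
  | zero => intro s _; simp
  | succ D ih =>
    intro s hs
    have hne : s.Nonempty := by
      rw [← card_pos]; omega
    have hm := s.max'_mem hne
    set m := s.max' hne with hmdef
    have h1 : s ⊆ range (m + 1) := by
      intro n hn
      rw [mem_range]
      have := s.le_max' n hn
      omega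
    have h2 : D ≤ m := by
      have := card_le_card h1
      rw [card_range, hs] at this
      omega
    have h3 := ih (s.erase m) (by rw [card_erase_of_mem hm, hs]; omega)
    have h4 : ∑ n ∈ s, n = ∑ n ∈ s.erase m, n + m := (sum_erase_add s (fun n => n) hm).symm
    have h5 : (D + 1) * (D + 1 - 1) / 2 = D * (D - 1) / 2 + D := by
      rw [Nat.add_sub_cancel]
      rcases D with _ | d
      · simp
      · rw [Nat.add_sub_cancel]
        have : (d + 1 + 1) * (d + 1) = (d + 1) * d + 2 * (d + 1) := by ring
        omega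
    omega

theorem det_bound (D : ℕ) (x : Fin D → ℝ) (r : ℝ) (hx : ∀ j, |x j| ≤ r) (φ : Fin D → ℕ) :
    |Matrix.det (Matrix.of fun i j : Fin D => x j ^ φ i)| ≤
      (Nat.factorial D : ℝ) * ∏ i, r ^ φ i := by
  rw [Matrix.det_apply]
  refine (abs_sum_le_sum_abs _ _).trans ?_
  have h1 : ∀ σ ∈ (univ : Finset (Equiv.Perm (Fin D))),
      |Equiv.Perm.sign σ • ∏ i, (Matrix.of fun i j : Fin D => x j ^ φ i) (σ i) i| ≤
        ∏ i, r ^ φ i := by
    intro σ _
    have h2 : |Equiv.Perm.sign σ • ∏ i, (Matrix.of fun i j : Fin D => x j ^ φ i) (σ i) i| =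
        ∏ i, |x i| ^ φ (σ i) := by
      rw [Units.smul_def, zsmul_eq_mul, abs_mul]
      have h3 : |((Equiv.Perm.sign σ : ℤ) : ℝ)| = 1 := by
        rcases Int.units_eq_one_or (Equiv.Perm.sign σ) with h | h <;> rw [h] <;> simp
      rw [h3, one_mul, abs_prod]
      apply prod_congr rfl
      intro i _
      rw [Matrix.of_apply, abs_pow]
    rw [h2, ← Equiv.prod_comp σ (fun i => r ^ φ i)]
    apply prod_le_prod
    · intro i _; positivity
    · intro i _
      exact pow_le_pow_left₀ (abs_nonneg _) (hx i) _
  refine (sum_le_card_nsmul _ _ _ h1).trans ?_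
  rw [card_univ, Fintype.card_perm, Fintype.card_fin, nsmul_eq_mul]

theorem ubf : UbfStmt := by
  intro D T a x r ρ hr hρ hx
  have hexp : Matrix.det (Matrix.of fun i j : Fin D => ∑ n ∈ range T, a i n * x j ^ n) =
      ∑ φ ∈ Fintype.piFinset (fun _ : Fin D => range T),
        (∏ i, a i (φ i)) * Matrix.det (Matrix.of fun i j : Fin D => x j ^ φ i) := by
    have h1 : (Matrix.of fun i j : Fin D => ∑ n ∈ range T, a i n * x j ^ n) =
        fun i => ∑ n ∈ range T, a i n • (fun j : Fin D => x j ^ n) := by
      funext i j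
      simp [Matrix.of_apply, Finset.sum_apply]
    have h2 : Matrix.det (Matrix.of fun i j : Fin D => ∑ n ∈ range T, a i n * x j ^ n) =
        (Matrix.detRowAlternating (n := Fin D) (R := ℝ)).toMultilinearMap
          (fun i => ∑ n ∈ range T, a i n • (fun j : Fin D => x j ^ n)) := by
      rw [h1]
      rfl
    rw [h2, MultilinearMap.map_sum_finset]
    apply sum_congr rfl
    intro φ _
    rw [MultilinearMap.map_smul_univ, smul_eq_mul]
    rfl
  rw [hexp]
  calc ρ ^ (D * (D - 1) / 2) * |∑ φ ∈ Fintype.piFinset (fun _ : Fin D => range T),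
        (∏ i, a i (φ i)) * Matrix.det (Matrix.of fun i j : Fin D => x j ^ φ i)|
      ≤ ρ ^ (D * (D - 1) / 2) * ∑ φ ∈ Fintype.piFinset (fun _ : Fin D => range T),
        |(∏ i, a i (φ i)) * Matrix.det (Matrix.of fun i j : Fin D => x j ^ φ i)| :=
        mul_le_mul_of_nonneg_left (abs_sum_le_sum_abs _ _) (by positivity)
    _ = ∑ φ ∈ Fintype.piFinset (fun _ : Fin D => range T), ρ ^ (D * (D - 1) / 2) *
        |(∏ i, a i (φ i)) * Matrix.det (Matrix.of fun i j : Fin D => x j ^ φ i)| := mul_sum _ _ _
    _ ≤ ∑ φ ∈ Fintype.piFinset (fun _ : Fin D => range T),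
        (Nat.factorial D : ℝ) * ∏ i, (|a i (φ i)| * (ρ * r) ^ φ i) := by
        apply sum_le_sum
        intro φ _
        by_cases hinj : Function.Injective φ
        · have h3 : D * (D - 1) / 2 ≤ ∑ i, φ i := by
            have h4 := sum_ge D (univ.image φ) (by
              rw [card_image_of_injective _ hinj, card_univ, Fintype.card_fin])
            rwa [sum_image (fun i _ j _ h => hinj h)] at h4
          have h5 := det_bound D x r hx φ
          have h6 : ρ ^ (D * (D - 1) / 2) ≤ ρ ^ (∑ i, φ i) := pow_le_pow_right₀ hρ h3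
          rw [abs_mul, abs_prod, prod_mul_distrib]
          have h7 : ∏ i, (ρ * r) ^ φ i = ρ ^ (∑ i, φ i) * ∏ i, r ^ φ i := by
            rw [← prod_pow_eq_pow_sum, ← prod_mul_distrib]
            apply prod_congr rfl
            intro i _
            rw [mul_pow]
          rw [h7]
          have h8 : 0 ≤ ∏ i, |a i (φ i)| := prod_nonneg fun i _ => abs_nonneg _
          have h9 : 0 ≤ ∏ i, r ^ φ i := prod_nonneg fun i _ => pow_nonneg hr _
          calc ρ ^ (D * (D - 1) / 2) * ((∏ i, |a i (φ i)|) *
                |Matrix.det (Matrix.of fun i j : Fin D => x j ^ φ i)|)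
              ≤ ρ ^ (∑ i, φ i) * ((∏ i, |a i (φ i)|) * ((Nat.factorial D : ℝ) * ∏ i, r ^ φ i)) := by
                apply mul_le_mul h6 (mul_le_mul_of_nonneg_left h5 h8)
                · positivity
                · positivity
            _ = (Nat.factorial D : ℝ) * ((∏ i, |a i (φ i)|) *
                (ρ ^ (∑ i, φ i) * ∏ i, r ^ φ i)) := by ring
        · have h3 : Matrix.det (Matrix.of fun i j : Fin D => x j ^ φ i) = 0 := by
            rw [Function.Injective] at hinj
            push Not at hinj
            obtain ⟨i, i', h4, h5⟩ := hinj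
            apply Matrix.det_zero_of_row_eq h5
            funext j
            rw [Matrix.of_apply, Matrix.of_apply, h4]
          rw [h3, mul_zero, abs_zero, mul_zero]
          have h8 : 0 ≤ ρ * r := mul_nonneg (by linarith) hr
          apply mul_nonneg (by positivity)
          exact prod_nonneg fun i _ => mul_nonneg (abs_nonneg _) (pow_nonneg h8 _)
    _ = (Nat.factorial D : ℝ) * ∏ i : Fin D, ∑ n ∈ range T, |a i n| * (ρ * r) ^ n := by
        rw [← mul_sum, ← prod_univ_sum (fun _ : Fin D => range T)
          (fun i n => |a i n| * (ρ * r) ^ n)]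

end Pool.Agent.MNE.H80
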