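import Pool.Agent.Helper15_MNE.FIN
import Pool.Agent.Helper17_MNE.CLO
import Pool.Agent.Helper19_MNE.EXR
import Pool.Agent.Helper20_MNE.WEI
import Pool.Agent.Helper21_MNE.FVB
import Pool.Agent.Helper24_MNE.Inj
import Pool.Agent.Helper25_MNE.CLF
import Pool.Agent.Helper27_MNE.ASY
import Pool.Agent.Helper38_MNE.RG3
import Pool.Agent.Helper40_MNE.CNT
import Pool.Agent.Helper44_MNE.Cli
import Pool.Agent.Helper44_MNE.Rg1
import Pool.Agent.Helper45_MNE.PER
import Pool.Agent.Helper49_MNE.RDC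
import Pool.Agent.Helper53_MNE.DIS
import Pool.Agent.Helper55_MNE.FVA
import Pool.Agent.Helper55_MNE.RED
import Pool.Agent.Helper62_MNE.RG2
import Pool.Agent.Helper64_MNE.TWO
import Pool.Agent.Helper69_MNE.MIN
import Pool.Agent.Helper77_MNE.BRA
import Pool.Agent.Helper84_MNE.MOH
import Pool.Agent.Helper87_MNE.ZER
import Pool.Agent.Helper90_MNE.BAS
import Pool.Agent.Helper91_MNE.FIX
import Pool.Agent.Helper92_MNE.CMB
import Pool.Agent.Helper94_MNE.ARC
import Pool.Agent.Helper97_MNE.YEZ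
import Pool.Agent.Helper78_SHP.PIN
import Pool.Agent.Helper78_SHP.PAD
import Pool.Agent.Helper10_MNE.FAC
import Pool.Agent.Helper80_MNE.Gcd
import Pool.Agent.Helper80_MNE.Ubf
import Pool.Agent.Helper80_MNE.Ube

/-!
# MP_d2d93c_nt, Theorem E: all rows put together
-/

set_option autoImplicit false

namespace Pool.Agent.MNE.H80

/-- for fixed exponents there are finitely many pairs -/
theorem fixAll : FixStmt :=
  Fix_proof (H55.red H90.bas (H97.yez H90.bas))
    (H77.bra H27.asy (H55.fva H27.asy) (H21.fvb H27.asy)) (H10.fac H20.wei (H19.exr H49.rdc))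
    (H84.moh H20.wei) H92.cmb

/-- Theorem E -/
theorem finAll : FinStmt :=
  have pin : Pool.Agent.SHP.PinStmt := Pool.Agent.SHP.H78.pin Pool.Agent.SHP.H78.pad
  have ube : UbeStmt := H80.ube ubf
  H15.fin H90.bas
    (H17.clo H90.bas (H44.rg1 H90.bas (H44.cli pin)) (H62.rg2 H90.bas (H25.clf pin))
      (H38.rg3 H90.bas (H25.clf pin)))
    (H64.two ube H45.per H69.min_ H87.zer gcd)
    (H40.cnt (H94.arc ube H45.per H69.min_ H24.inj gcd H53.dis))
    fixAll

end Pool.Agent.MNE.H80
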